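import Pool.Agent.Helper8_HK.Stmt0
import Pool.Agent.Helper8_HK.Stmt3

/-! Module DIG of squad HK: the first digit as a combination of values of the exponential
function. -/

namespace Pool.Agent.HK.H14

open Polynomial

section

variable {F : Type} [Field F] {C : Type} [NormedField C]

/-- Coefficients of a power of the uniformizer. -/
theorem coeff_unif (hLAU : LAUStmt) (k i : ℤ) :
    HahnSeries.coeff ((unif F) ^ k) i = if i = k then 1 else 0 := by
  obtain ⟨_, _, _, _, _, _, h7, _⟩ := hLAU F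
  have h := h7 k i 1
  rw [mul_one] at h
  rw [h, HahnSeries.coeff_one]
  by_cases hik : i = k
  · simp [hik]
  · have : i - k ≠ 0 := sub_ne_zero.2 hik
    simp [hik, this]

/-- Coefficients of a monomial. -/
theorem coeff_mono (hLAU : LAUStmt) (c : F) (k i : ℤ) :
    HahnSeries.coeff (cst F c * (unif F) ^ k) i = if i = k then c else 0 := by
  obtain ⟨_, _, h3, _⟩ := hLAU F
  rw [h3, coeff_unif hLAU]
  split <;> simp

/-- Multiplication by a power of `T`. -/
theorem emb_pow (hLAU : LAUStmt) (l : ℕ) : emb F (X ^ l) = (unif F) ^ (-(l : ℤ)) := by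
  obtain ⟨_, _, _, _, h5, _⟩ := hLAU F
  rw [map_pow, h5, ← zpow_natCast, ← zpow_mul]
  congr 1
  ring

/-- The coefficients. -/
noncomputable def cD (ε : ℕ → C) : ℕ → C
  | 0 => (ε 1)⁻¹
  | (n + 1) => - (ε 1)⁻¹ * ∑ l : Fin (n + 1), cD ε l * ε (n + 2 - l)

theorem cD_zero (ε : ℕ → C) : cD ε 0 = (ε 1)⁻¹ := by rw [cD]

theorem cD_succ (ε : ℕ → C) (n : ℕ) :
    cD ε (n + 1) = - (ε 1)⁻¹ * ∑ l ∈ Finset.range (n + 1), cD ε l * ε (n + 2 - l) := by
  rw [cD, Finset.sum_range]

/-- The recursion. -/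
theorem cD_rec (ε : ℕ → C) (h1 : ε 1 ≠ 0) (n : ℕ) :
    ∑ l ∈ Finset.range (n + 2), cD ε l * ε (n + 2 - l) = 0 := by
  rw [Finset.sum_range_succ, cD_succ]
  have : n + 2 - (n + 1) = 1 := by omega
  rw [this]
  field_simp
  ring

/-- The bound. -/
theorem cD_bound [IsUltrametricDist C] (ε : ℕ → C) (q : ℝ) (hq : 0 < q)
    (hε : ∀ i : ℕ, 1 ≤ i → ‖ε i‖ = (q ^ i)⁻¹) (n : ℕ) : ‖cD ε n‖ ≤ q * (q ^ n)⁻¹ := by
  induction n using Nat.strong_induction_on with
  | _ n ih =>
    rcases n with _ | n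
    · rw [cD_zero, norm_inv, hε 1 le_rfl]
      simp
    · rw [cD_succ, norm_mul, norm_neg, norm_inv, hε 1 le_rfl, inv_inv, pow_one]
      have hsum : ‖∑ l ∈ Finset.range (n + 1), cD ε l * ε (n + 2 - l)‖ ≤ (q ^ (n + 1))⁻¹ := by
        apply IsUltrametricDist.norm_sum_le_of_forall_le_of_nonneg (by positivity)
        intro l hl
        have hl' : l < n + 1 := Finset.mem_range.1 hl
        rw [norm_mul, hε _ (by omega)]
        have h1 := ih l (by omega)
        calc ‖cD ε l‖ * (q ^ (n + 2 - l))⁻¹ ≤ (q * (q ^ l)⁻¹) * (q ^ (n + 2 - l))⁻¹ := by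
              apply mul_le_mul_of_nonneg_right h1 (by positivity)
          _ = (q ^ (n + 1))⁻¹ := by
              have h2 : q ^ (n + 2) = q ^ l * q ^ (n + 2 - l) := by
                rw [← pow_add]; congr 1; omega
              have h3 : q ^ (n + 2) = q * q ^ (n + 1) := by rw [← pow_succ']
              have h4 : q ^ l ≠ 0 := pow_ne_zero _ hq.ne'
              have h5 : q ^ (n + 2 - l) ≠ 0 := pow_ne_zero _ hq.ne'
              have h6 : q ^ (n + 1) ≠ 0 := pow_ne_zero _ hq.ne'
              rw [mul_assoc, ← mul_inv, ← h2, h3, mul_inv]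
              field_simp
      exact mul_le_mul_of_nonneg_left hsum hq.le

end

/-- DIG: the first digit. -/
theorem dig (hLAU : LAUStmt) (hIMA : IMAStmt) : DIGStmt := by
  intro F _ _ C _ _ _ _ ι hι e he
  set q : ℝ := ((Fintype.card F : ℕ) : ℝ) with hqdef
  have hq1 : 1 < q := by
    rw [hqdef]
    exact_mod_cast Fintype.one_lt_card
  have hq : 0 < q := by linarith
  obtain ⟨_, hI2, hI3, _⟩ := hIMA F C ι hι
  obtain ⟨_, hL2, hL3, hL4, hL5, hL6, hL7, hL8, _, _, hL11, _⟩ := hLAU F
  -- values at the powers of the uniformizer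
  set ε : ℕ → C := fun i => e (ι ((unif F) ^ (i : ℤ))) with hεdef
  have hε : ∀ i : ℕ, 1 ≤ i → ‖ε i‖ = (q ^ i)⁻¹ := by
    intro i hi
    have h1 : ‖ι ((unif F) ^ (i : ℤ))‖ = q ^ (-(i : ℤ)) := by
      apply hI3
      · intro k hk
        rw [coeff_unif hLAU, if_neg (by omega)]
      · rw [coeff_unif hLAU, if_pos rfl]
        exact one_ne_zero
    have h2 : q ^ (-(i : ℤ)) = (q ^ i)⁻¹ := by rw [zpow_neg, zpow_natCast]
    have h3 : (q ^ i)⁻¹ < 1 := by
      apply inv_lt_one_of_one_lt₀
      exact one_lt_pow₀ hq1 (by omega)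
    rw [hεdef]
    change ‖e (ι ((unif F) ^ (i : ℤ)))‖ = _
    rw [he.nrm _ (by rw [h1, h2]; exact h3), h1, h2]
  have hε1 : ε 1 ≠ 0 := by
    intro h
    have h2 := hε 1 le_rfl
    rw [h, norm_zero] at h2
    have : (0 : ℝ) < (q ^ 1)⁻¹ := by positivity
    linarith
  -- values at powers of T vanish
  have hεneg : ∀ i : ℤ, i ≤ 0 → e (ι ((unif F) ^ i)) = 0 := by
    intro i hi
    obtain ⟨l, rfl⟩ : ∃ l : ℕ, i = -(l : ℤ) := ⟨i.natAbs, by omega⟩
    rw [← emb_pow hLAU]
    exact he.van _
  have hzero : e 0 = 0 := by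
    have := he.add 0 0
    rw [add_zero] at this
    have h2 : e 0 + 0 = e 0 + e 0 := by rw [add_zero, ← this]
    exact (add_left_cancel h2).symm
  -- the linear form
  set P : ℕ → Kinf F → C := fun N x =>
    ∑ l ∈ Finset.range N, cD ε l * e (ι (emb F (X ^ l) * x)) with hP
  have hPadd : ∀ N x y, P N (x + y) = P N x + P N y := by
    intro N x y
    simp only [hP, mul_add, map_add, he.add, Finset.sum_add_distrib]
  have hPsmul : ∀ (N : ℕ) (c : F) (x : Kinf F), P N (cst F c * x) = ι (cst F c) * P N x := by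
    intro N c x
    simp only [hP, Finset.mul_sum]
    refine Finset.sum_congr rfl fun l _ => ?_
    have : emb F (X ^ l) * (cst F c * x) = cst F c * (emb F (X ^ l) * x) := by ring
    rw [this, map_mul, he.smul]
    ring
  have hPzero : ∀ N, P N 0 = 0 := by
    intro N
    simp only [hP, mul_zero, map_zero, hzero, Finset.sum_const_zero]
  have hPemb : ∀ (N : ℕ) (a : F[X]), P N (emb F a) = 0 := by
    intro N a
    simp only [hP]
    refine Finset.sum_eq_zero fun l _ => ?_
    rw [← map_mul, he.van, mul_zero]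
  have hPunif : ∀ (N i : ℕ), i < N → P N ((unif F) ^ ((i : ℤ) + 1)) = if i = 0 then 1 else 0 := by
    intro N i hi
    have h1 : P N ((unif F) ^ ((i : ℤ) + 1)) =
        ∑ l ∈ Finset.range (i + 1), cD ε l * ε (i + 1 - l) := by
      simp only [hP]
      have hsub : Finset.range (i + 1) ⊆ Finset.range N := by
        intro l hl
        rw [Finset.mem_range] at hl ⊢
        omega
      rw [← Finset.sum_subset hsub]
      · refine Finset.sum_congr rfl fun l hl => ?_
        rw [Finset.mem_range] at hl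
        rw [emb_pow hLAU, ← zpow_add₀ hL6]
        have : -(l : ℤ) + ((i : ℤ) + 1) = ((i + 1 - l : ℕ) : ℤ) := by
          push_cast [Nat.cast_sub (by omega : l ≤ i + 1)]
          ring
        rw [this]
      · intro l _ hl2
        rw [Finset.mem_range] at hl2
        rw [emb_pow hLAU, ← zpow_add₀ hL6, hεneg _ (by omega), mul_zero]
    rw [h1]
    rcases i with _ | i
    · simp [cD_zero, inv_mul_cancel₀ hε1]
    · rw [if_neg (by omega)]
      exact cD_rec ε hε1 i
  have hPsmall : ∀ (N : ℕ) (y : Kinf F), InO ((N : ℤ) + 1) y → ‖P N y‖ ≤ (q ^ N)⁻¹ := by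
    intro N y hy
    simp only [hP]
    apply IsUltrametricDist.norm_sum_le_of_forall_le_of_nonneg (by positivity)
    intro l hl
    have hl' : l < N := Finset.mem_range.1 hl
    have h1 : ‖ι (emb F (X ^ l) * y)‖ ≤ q ^ (-((N : ℤ) + 1 - l)) := by
      apply hI2
      intro k hk
      rw [emb_pow hLAU, hL7]
      apply hy
      omega
    have h2 : q ^ (-((N : ℤ) + 1 - l)) = (q ^ (N + 1 - l))⁻¹ := by
      rw [zpow_neg, ← zpow_natCast]
      congr 2
      push_cast [Nat.cast_sub (by omega : l ≤ N + 1)]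
      ring
    rw [h2] at h1
    have h3 : (q ^ (N + 1 - l))⁻¹ < 1 := by
      apply inv_lt_one_of_one_lt₀
      exact one_lt_pow₀ hq1 (by omega)
    rw [norm_mul, he.nrm _ (lt_of_le_of_lt h1 h3)]
    calc ‖cD ε l‖ * ‖ι (emb F (X ^ l) * y)‖ ≤ (q * (q ^ l)⁻¹) * (q ^ (N + 1 - l))⁻¹ := by
          apply mul_le_mul (cD_bound ε q hq hε l) h1 (norm_nonneg _) (by positivity)
      _ = (q ^ N)⁻¹ := by
          have h2 : q ^ (N + 1) = q ^ l * q ^ (N + 1 - l) := by
            rw [← pow_add]; congr 1; omega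
          have h3 : q ^ (N + 1) = q * q ^ N := by rw [← pow_succ']
          have h6 : q ^ N ≠ 0 := pow_ne_zero _ hq.ne'
          rw [mul_assoc, ← mul_inv, ← h2, h3, mul_inv]
          field_simp
  refine ⟨cD ε, fun l => cD_bound ε q hq hε l, fun x N => ?_⟩
  change ‖P N x - ι (cst F (HahnSeries.coeff x 1))‖ ≤ (q ^ N)⁻¹
  obtain ⟨a, ha⟩ := hL11 x
  -- truncation
  set z := x - emb F a with hz
  have hz1 : HahnSeries.coeff z 1 = HahnSeries.coeff x 1 := by
    rw [hz, HahnSeries.coeff_sub, hL2 a 1 one_pos, sub_zero]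
  have hxz : x = z + emb F a := by rw [hz]; ring
  set s : Kinf F := ∑ i ∈ Finset.range N,
    cst F (HahnSeries.coeff z ((i : ℤ) + 1)) * (unif F) ^ ((i : ℤ) + 1) with hs
  have hcs : ∀ k : ℤ, HahnSeries.coeff s k =
      ∑ i ∈ Finset.range N, if k = (i : ℤ) + 1 then HahnSeries.coeff z ((i : ℤ) + 1) else 0 := by
    intro k
    rw [hs, HahnSeries.coeff_sum]
    refine Finset.sum_congr rfl fun i _ => ?_
    exact coeff_mono hLAU _ _ _
  have hy : InO ((N : ℤ) + 1) (z - s) := by
    intro k hk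
    rw [HahnSeries.coeff_sub, hcs]
    by_cases hk1 : k < 1
    · rw [ha k hk1, Finset.sum_eq_zero, sub_zero]
      intro i _
      rw [if_neg (by omega)]
    · obtain ⟨i, rfl⟩ : ∃ i : ℕ, k = (i : ℤ) + 1 := ⟨(k - 1).toNat, by omega⟩
      rw [Finset.sum_eq_single i]
      · rw [if_pos rfl, sub_self]
      · intro j _ hj
        rw [if_neg]
        intro h
        exact hj (by omega)
      · intro hi
        rw [Finset.mem_range] at hi
        omega
  have hPs : P N s = if N = 0 then 0 else ι (cst F (HahnSeries.coeff x 1)) := by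
    have h1 : ∀ M : ℕ, M ≤ N → P N (∑ i ∈ Finset.range M,
        cst F (HahnSeries.coeff z ((i : ℤ) + 1)) * (unif F) ^ ((i : ℤ) + 1)) =
        if M = 0 then 0 else ι (cst F (HahnSeries.coeff x 1)) := by
      intro M
      induction M with
      | zero =>
        intro _
        simp [hPzero]
      | succ M ih =>
        intro hM
        rw [Finset.sum_range_succ, hPadd, ih (by omega), hPsmul, hPunif N M (by omega)]
        rcases M with _ | M
        · simp [hz1]
        · simp
    exact h1 N le_rfl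
  have hsplit : P N x = P N s + P N (z - s) := by
    rw [hxz, hPadd, hPemb, add_zero, ← hPadd]
    congr 1
    ring
  rcases Nat.eq_zero_or_pos N with h0 | h0
  · subst h0
    have h1 : P 0 x = 0 := by simp [hP]
    rw [h1, zero_sub, norm_neg, pow_zero, inv_one]
    have h2 := hI2 (cst F (HahnSeries.coeff x 1)) 0 (by
      intro i hi
      have h3 := coeff_mono hLAU (HahnSeries.coeff x 1) 0 i
      rw [zpow_zero, mul_one] at h3
      rw [h3, if_neg (by omega)])
    simpa using h2
  · rw [hsplit, hPs, if_neg (by omega), add_sub_cancel_left]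
    exact hPsmall N _ hy

end Pool.Agent.HK.H14
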