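import Pool.Agent.Helper8_HK.Stmt1
import Pool.Agent.Helper19_HK.LAU

/-! Module DLT of squad HK: normal forms of integral matrices modulo `Γ_0(n)`. -/

namespace Pool.Agent.HK.H14

open Polynomial

/-- `emb` is injective. -/
theorem emb_inj {F : Type} [Field F] : Function.Injective (emb F) := by
  intro a b hab
  ext i
  have h := (Pool.Agent.HK.H19.lau F).1
  rw [← h a i, ← h b i, hab]

theorem emb_ne {F : Type} [Field F] {a : F[X]} (ha : a ≠ 0) : emb F a ≠ 0 := by
  intro h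
  exact ha (emb_inj (by rw [h, map_zero]))

/-- Equality of explicit matrices with polynomial entries, on the level of entries. -/
theorem mat_inj (hMTX : MTXStmt) {F : Type} [Field F] {a b c d a' b' c' d' : F[X]}
    (h1 : a * d - b * c ≠ 0) (h2 : a' * d' - b' * c' ≠ 0)
    (h : (mat (emb F a) (emb F b) (emb F c) (emb F d) : GLK F) =
      mat (emb F a') (emb F b') (emb F c') (emb F d')) :
    a = a' ∧ b = b' ∧ c = c' ∧ d = d' := by
  have hent := (hMTX F).1
  have e1 : emb F a * emb F d - emb F b * emb F c ≠ 0 := by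
    rw [← map_mul, ← map_mul, ← map_sub]; exact emb_ne h1
  have e2 : emb F a' * emb F d' - emb F b' * emb F c' ≠ 0 := by
    rw [← map_mul, ← map_mul, ← map_sub]; exact emb_ne h2
  obtain ⟨p1, p2, p3, p4⟩ := hent _ _ _ _ e1
  obtain ⟨q1, q2, q3, q4⟩ := hent _ _ _ _ e2
  refine ⟨emb_inj ?_, emb_inj ?_, emb_inj ?_, emb_inj ?_⟩
  · rw [← p1, ← q1, h]
  · rw [← p2, ← q2, h]
  · rw [← p3, ← q3, h]
  · rw [← p4, ← q4, h]

/-- The determinant of an element of `GLA` is a nonzero constant. -/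
theorem det_unit {F : Type} [Field F] (γ : GLA F) :
    ∃ u : F, u ≠ 0 ∧ γ 0 0 * γ 1 1 - γ 0 1 * γ 1 0 = C u := by
  have h : IsUnit ((γ : Matrix (Fin 2) (Fin 2) F[X]).det) := by
    have := (Matrix.isUnit_iff_isUnit_det (γ : Matrix (Fin 2) (Fin 2) F[X])).1 γ.isUnit
    exact this
  rw [Matrix.det_fin_two] at h
  obtain ⟨u, hu, hu'⟩ := Polynomial.isUnit_iff.1 h
  exact ⟨u, hu.ne_zero, hu'.symm⟩

/-- `toK γ` as an explicit matrix. -/
theorem toK_eq (hMTX : MTXStmt) {F : Type} [Field F] (γ : GLA F) :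
    (toK γ : GLK F) = mat (emb F (γ 0 0)) (emb F (γ 0 1)) (emb F (γ 1 0)) (emb F (γ 1 1)) := by
  obtain ⟨_, h2, _, _, _, _, _, _, _, _, _, h12, _⟩ := hMTX F
  obtain ⟨p1, p2, p3, p4⟩ := h12 γ
  rw [← p1, ← p2, ← p3, ← p4]
  exact (h2 _).1

/-- Product of explicit matrices with polynomial entries. -/
theorem mat_mul (hMTX : MTXStmt) {F : Type} [Field F] {a b c d a' b' c' d' : F[X]}
    (h1 : a * d - b * c ≠ 0) (h2 : a' * d' - b' * c' ≠ 0) :
    (mat (emb F a) (emb F b) (emb F c) (emb F d) : GLK F) *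
      mat (emb F a') (emb F b') (emb F c') (emb F d') =
      mat (emb F (a * a' + b * c')) (emb F (a * b' + b * d'))
        (emb F (c * a' + d * c')) (emb F (c * b' + d * d')) := by
  obtain ⟨_, _, h3, _⟩ := hMTX F
  have e1 : emb F a * emb F d - emb F b * emb F c ≠ 0 := by
    rw [← map_mul, ← map_mul, ← map_sub]; exact emb_ne h1
  have e2 : emb F a' * emb F d' - emb F b' * emb F c' ≠ 0 := by
    rw [← map_mul, ← map_mul, ← map_sub]; exact emb_ne h2
  rw [h3 _ _ _ _ _ _ _ _ e1 e2]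
  simp only [map_add, map_mul]

theorem hmat_eq {F : Type} [Field F] (x : F[X] × F[X] × F[X]) :
    (hmat x : GLK F) = mat (emb F x.1) (emb F x.2.1) (emb F 0) (emb F x.2.2) := by
  unfold hmat
  rw [map_zero]

/-- Determinant of a member of the index set. -/
theorem hdet {F : Type} [Field F] {n m : F[X]} {x : F[X] × F[X] × F[X]} (hm : m.Monic)
    (hx : x ∈ HIdx n m) : x.1 * x.2.2 - x.2.1 * 0 ≠ 0 := by
  rw [mul_zero, sub_zero, hx.2.2.1]
  exact hm.ne_zero

/-- Product `toK γ * hmat x`. -/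
theorem toK_mul_hmat (hMTX : MTXStmt) {F : Type} [Field F] {n m : F[X]} (hm : m.Monic)
    {x : F[X] × F[X] × F[X]} (hx : x ∈ HIdx n m) (γ : GLA F) :
    (toK γ : GLK F) * hmat x = mat (emb F (γ 0 0 * x.1)) (emb F (γ 0 0 * x.2.1 + γ 0 1 * x.2.2))
      (emb F (γ 1 0 * x.1)) (emb F (γ 1 0 * x.2.1 + γ 1 1 * x.2.2)) := by
  obtain ⟨u, hu, hu'⟩ := det_unit γ
  rw [toK_eq hMTX, hmat_eq, mat_mul hMTX (by rw [hu']; simpa using hu) (hdet hm hx)]
  simp

/-- Uniqueness of the normal form. -/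
theorem uniq (hMTX : MTXStmt) {F : Type} [Field F] {n m : F[X]} (hm : m.Monic)
    {x y : F[X] × F[X] × F[X]} (hx : x ∈ HIdx n m) (hy : y ∈ HIdx n m) (γ : GLA F)
    (h : (toK γ : GLK F) * hmat x = hmat y) : x = y := by
  obtain ⟨u, hu, hu'⟩ := det_unit γ
  rw [toK_mul_hmat hMTX hm hx, hmat_eq] at h
  have hdx := hdet hm hx
  have hdy := hdet hm hy
  have hd1 : (γ 0 0 * x.1) * (γ 1 0 * x.2.1 + γ 1 1 * x.2.2) -
      (γ 0 0 * x.2.1 + γ 0 1 * x.2.2) * (γ 1 0 * x.1) ≠ 0 := by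
    have : (γ 0 0 * x.1) * (γ 1 0 * x.2.1 + γ 1 1 * x.2.2) -
      (γ 0 0 * x.2.1 + γ 0 1 * x.2.2) * (γ 1 0 * x.1) =
        (γ 0 0 * γ 1 1 - γ 0 1 * γ 1 0) * (x.1 * x.2.2 - x.2.1 * 0) := by ring
    rw [this, hu']
    exact mul_ne_zero (by simpa using hu) hdx
  obtain ⟨h1, h2, h3, h4⟩ := mat_inj hMTX hd1 hdy h
  obtain ⟨xa, xb, xd⟩ := x
  obtain ⟨ya, yb, yd⟩ := y
  obtain ⟨hx1, hx2, hx3, hx4, hx5⟩ := hx
  obtain ⟨hy1, hy2, hy3, hy4, hy5⟩ := hy
  simp only at h1 h2 h3 h4 hx1 hx2 hx3 hx4 hx5 hy1 hy2 hy3 hy4 hy5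
  have hr : γ 1 0 = 0 := by
    rcases mul_eq_zero.1 h3 with h | h
    · exact h
    · exact absurd h hx1.ne_zero
  rw [hr] at hu' h4
  simp only [mul_zero, sub_zero, zero_mul, zero_add] at hu' h4
  have hunit : IsUnit (γ 0 0 * γ 1 1) := by
    rw [hu']
    exact Polynomial.isUnit_C.2 (isUnit_iff_ne_zero.2 hu)
  have hp : IsUnit (γ 0 0) := isUnit_of_mul_isUnit_left hunit
  have hs : IsUnit (γ 1 1) := isUnit_of_mul_isUnit_right hunit
  have ha : xa = ya := by
    apply Polynomial.eq_of_monic_of_associated hx1 hy1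
    obtain ⟨v, hv⟩ := hp
    exact ⟨v, by rw [hv, mul_comm, h1]⟩
  have hd : xd = yd := by
    apply Polynomial.eq_of_monic_of_associated hx2 hy2
    obtain ⟨v, hv⟩ := hs
    exact ⟨v, by rw [hv, mul_comm, h4]⟩
  have hp1 : γ 0 0 = 1 := by
    have : γ 0 0 * xa = 1 * xa := by rw [h1, one_mul, ha]
    exact mul_right_cancel₀ hx1.ne_zero this
  have hb : yb = xb := by
    rw [hp1, one_mul] at h2
    by_contra hne
    have hq : γ 0 1 ≠ 0 := by
      intro hq
      rw [hq] at h2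
      exact hne (by rw [← h2]; ring)
    have e : γ 0 1 * xd = yb - xb := by rw [← h2]; ring
    have d1 : (yb - xb).degree < xd.degree := by
      refine lt_of_le_of_lt (Polynomial.degree_sub_le _ _) ?_
      rw [max_lt_iff]
      exact ⟨by rw [hd]; exact hy5, hx5⟩
    rw [← e, Polynomial.degree_mul] at d1
    have d2 : (0 : WithBot ℕ) ≤ (γ 0 1).degree := Polynomial.zero_le_degree_iff.2 hq
    have d3 : xd.degree ≤ (γ 0 1).degree + xd.degree := by
      calc xd.degree = 0 + xd.degree := (zero_add _).symm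
        _ ≤ _ := by gcongr
    exact absurd d1 (not_lt.2 d3)
  rw [ha, hd, hb]

/-- DLT: every integral matrix of determinant `m` up to a constant, with lower left entry
divisible by `n` and upper left entry prime to `n`, is equivalent modulo `Γ_0(n)` to exactly one
matrix of the index set. -/
theorem dlt (hMTX : MTXStmt) : DLTStmt := by
  intro F _ n m hm α β χ δ hχ hα ⟨u, hu, hdet⟩
  classical
  have hdet0 : α * δ - β * χ ≠ 0 := by
    rw [hdet]
    exact mul_ne_zero (by simpa using hu) hm.ne_zero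
  -- the gcd
  obtain ⟨a, α', χ', y, z, ha, hαa, hχa, hbez⟩ : ∃ a α' χ' y z : F[X], a.Monic ∧ α = a * α' ∧
      χ = a * χ' ∧ α' * z - χ' * y = 1 := by
    set g := EuclideanDomain.gcd α χ with hg
    have hg0 : g ≠ 0 := by
      intro h0
      rw [hg, EuclideanDomain.gcd_eq_zero_iff] at h0
      apply hdet0
      rw [h0.1, h0.2]
      ring
    obtain ⟨α1, hα1⟩ := EuclideanDomain.gcd_dvd_left α χ
    obtain ⟨χ1, hχ1⟩ := EuclideanDomain.gcd_dvd_right α χ
    rw [← hg] at hα1 hχ1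
    have hbz := EuclideanDomain.gcd_eq_gcd_ab α χ
    rw [← hg] at hbz
    set c := g.leadingCoeff with hc
    have hc0 : c ≠ 0 := Polynomial.leadingCoeff_ne_zero.2 hg0
    have hcc : C c * C c⁻¹ = (1 : F[X]) := by rw [← C_mul, mul_inv_cancel₀ hc0, C_1]
    refine ⟨g * C c⁻¹, C c * α1, C c * χ1, -(C c⁻¹ * EuclideanDomain.gcdB α χ),
      C c⁻¹ * EuclideanDomain.gcdA α χ, Polynomial.monic_mul_leadingCoeff_inv hg0, ?_, ?_, ?_⟩
    · rw [hα1]
      linear_combination (-(g * α1)) * hcc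
    · rw [hχ1]
      linear_combination (-(g * χ1)) * hcc
    · have e : g * (α1 * EuclideanDomain.gcdA α χ + χ1 * EuclideanDomain.gcdB α χ) = g * 1 := by
        rw [mul_one]
        calc g * (α1 * EuclideanDomain.gcdA α χ + χ1 * EuclideanDomain.gcdB α χ)
            = (g * α1) * EuclideanDomain.gcdA α χ + (g * χ1) * EuclideanDomain.gcdB α χ := by ring
          _ = α * EuclideanDomain.gcdA α χ + χ * EuclideanDomain.gcdB α χ := by
              rw [← hα1, ← hχ1]
          _ = g := hbz.symm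
      have e2 := mul_left_cancel₀ hg0 e
      linear_combination e2 + (α1 * EuclideanDomain.gcdA α χ + χ1 * EuclideanDomain.gcdB α χ) * hcc
  have han : IsCoprime a n := by
    rw [hαa] at hα
    exact hα.of_mul_left_left
  have hnχ' : n ∣ χ' := by
    rw [hχa] at hχ
    exact han.symm.dvd_of_dvd_mul_left hχ
  set b0 := z * β - y * δ with hb0
  set d0 := α' * δ - χ' * β with hd0
  have had0 : a * d0 = C u * m := by
    rw [← hdet, hd0, hαa, hχa]
    ring
  have huu : C u * C u⁻¹ = (1 : F[X]) := by rw [← C_mul, mul_inv_cancel₀ hu, C_1]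
  set d := C u⁻¹ * d0 with hd
  have had : a * d = m := by
    rw [hd]
    calc a * (C u⁻¹ * d0) = C u⁻¹ * (a * d0) := by ring
      _ = C u⁻¹ * (C u * m) := by rw [had0]
      _ = m := by linear_combination m * huu
  have hdm : d.Monic := by
    apply ha.of_mul_monic_left
    rw [had]
    exact hm
  have hd0d : d0 = C u * d := by
    rw [hd]
    linear_combination (-d0) * huu
  set b := b0 %ₘ d with hb
  set s := b0 /ₘ d with hs
  have hbs : b + d * s = b0 := Polynomial.modByMonic_add_div b0 d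
  have hx : ((a, b, d) : F[X] × F[X] × F[X]) ∈ HIdx n m :=
    ⟨ha, hdm, had, han, Polynomial.degree_modByMonic_lt b0 hdm⟩
  obtain ⟨_, _, _, _, _, _, _, _, _, _, _, _, h13, _, _, h16, h17⟩ := hMTX F
  obtain ⟨γ, g1, g2, g3, g4⟩ := h13 α' (α' * s + y * C u) χ' (χ' * s + z * C u) (by
    have : α' * (χ' * s + z * C u) - (α' * s + y * C u) * χ' = C u := by
      linear_combination C u * hbez
    rw [this]
    exact Polynomial.isUnit_C.2 (isUnit_iff_ne_zero.2 hu))
  have hγ : γ ∈ Gam0 n := by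
    change n ∣ γ 1 0
    rw [g3]
    exact hnχ'
  have hrep : (mat (emb F α) (emb F β) (emb F χ) (emb F δ) : GLK F) = toK γ * hmat (a, b, d) := by
    rw [toK_mul_hmat hMTX hm hx, g1, g2, g3, g4]
    have e1 : α' * a = α := by rw [hαa]; ring
    have e3 : χ' * a = χ := by rw [hχa]; ring
    have e2 : α' * b + (α' * s + y * C u) * d = β := by
      have : α' * b + (α' * s + y * C u) * d = α' * (b + d * s) + y * (C u * d) := by ring
      rw [this, hbs, ← hd0d, hb0, hd0]
      linear_combination β * hbez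
    have e4 : χ' * b + (χ' * s + z * C u) * d = δ := by
      have : χ' * b + (χ' * s + z * C u) * d = χ' * (b + d * s) + z * (C u * d) := by ring
      rw [this, hbs, ← hd0d, hb0, hd0]
      linear_combination δ * hbez
    simp only [e1, e2, e3, e4]
  refine ⟨(a, b, d), ⟨hx, γ, hγ, hrep⟩, ?_⟩
  rintro x' ⟨hx', γ', hγ', hrep'⟩
  apply uniq hMTX hm hx' hx (γ⁻¹ * γ')
  rw [hrep] at hrep'
  rw [map_mul, mul_assoc, ← hrep', map_inv, inv_mul_cancel_left]

end Pool.Agent.HK.H14
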