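import Pool.Agent.Helper14_HK.DLT

/-! Module HPM of squad HK: finiteness and permutations of the index set. -/

namespace Pool.Agent.HK.H14

open Polynomial

/-- Polynomials of bounded degree over a finite field form a finite set. -/
theorem finite_deg (F : Type) [Field F] [Fintype F] (N : ℕ) :
    {p : F[X] | p.degree < N}.Finite := by
  have : Finite (Polynomial.degreeLT F N) :=
    Finite.of_equiv _ (Polynomial.degreeLTEquiv F N).toEquiv.symm
  refine (Set.toFinite ((Polynomial.degreeLT F N : Submodule F F[X]) : Set F[X])).subset ?_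
  intro p hp
  exact Polynomial.mem_degreeLT.2 hp

/-- The index set is finite. -/
theorem hidx_finite {F : Type} [Field F] [Fintype F] (n m : F[X]) :
    (HIdx n m).Finite := by
  set N := m.natDegree + 1 with hN
  have hS := finite_deg F N
  refine ((hS.prod (hS.prod hS))).subset ?_
  rintro ⟨a, b, d⟩ ⟨ha, hd, had, -, hbd⟩
  simp only at ha hd had hbd
  have hdeg : a.natDegree + d.natDegree = m.natDegree := by
    rw [← had, Polynomial.natDegree_mul ha.ne_zero hd.ne_zero]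
  have h1 : a.degree < (N : WithBot ℕ) := by
    rw [Polynomial.degree_eq_natDegree ha.ne_zero]
    exact_mod_cast (by omega : a.natDegree < N)
  have h2 : d.degree < (N : WithBot ℕ) := by
    rw [Polynomial.degree_eq_natDegree hd.ne_zero]
    exact_mod_cast (by omega : d.natDegree < N)
  exact ⟨h1, hbd.trans h2, h2⟩

/-- Injectivity principle: two index triples equivalent modulo `Γ_0(n)` agree. -/
theorem uniq' (hMTX : MTXStmt) {F : Type} [Field F] {n m : F[X]} (hm : m.Monic)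
    {x y : F[X] × F[X] × F[X]} (hx : x ∈ HIdx n m) (hy : y ∈ HIdx n m) (γ δ : GLA F)
    (h : (toK γ : GLK F) * hmat x = toK δ * hmat y) : x = y := by
  apply uniq hMTX hm hx hy (δ⁻¹ * γ)
  rw [map_mul, mul_assoc, h, map_inv, inv_mul_cancel_left]

/-- `hmat x * toK γ` is again of the form of DLT. -/
theorem right_form (hDLT : DLTStmt) (hMTX : MTXStmt) {F : Type} [Field F] {n m : F[X]}
    (hm : m.Monic) {γ : GLA F} (hγ : γ ∈ Gam0 n) {x : F[X] × F[X] × F[X]} (hx : x ∈ HIdx n m) :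
    ∃ y ∈ HIdx n m, ∃ δ ∈ Gam0 n, (hmat x : GLK F) * toK γ = toK δ * hmat y := by
  obtain ⟨u, hu, hu'⟩ := det_unit γ
  have hγn : n ∣ γ 1 0 := hγ
  have e : (hmat x : GLK F) * toK γ =
      mat (emb F (x.1 * γ 0 0 + x.2.1 * γ 1 0)) (emb F (x.1 * γ 0 1 + x.2.1 * γ 1 1))
        (emb F (0 * γ 0 0 + x.2.2 * γ 1 0)) (emb F (0 * γ 0 1 + x.2.2 * γ 1 1)) := by
    rw [toK_eq hMTX, hmat_eq, mat_mul hMTX (hdet hm hx) (by rw [hu']; simpa using hu)]
  obtain ⟨ha, hd, had, hco, hbd⟩ := hx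
  have hcop : IsCoprime (γ 0 0) n := by
    obtain ⟨k, hk⟩ := hγn
    have huu : C u * C u⁻¹ = (1 : F[X]) := by rw [← C_mul, mul_inv_cancel₀ hu, C_1]
    refine ⟨C u⁻¹ * γ 1 1, - (C u⁻¹ * γ 0 1 * k), ?_⟩
    have : C u⁻¹ * (γ 0 0 * γ 1 1 - γ 0 1 * γ 1 0) = 1 := by rw [hu', mul_comm, huu]
    rw [hk] at this
    linear_combination this
  obtain ⟨y, ⟨hy, δ, hδ, hyδ⟩, -⟩ := hDLT F n m hm (x.1 * γ 0 0 + x.2.1 * γ 1 0)
    (x.1 * γ 0 1 + x.2.1 * γ 1 1) (0 * γ 0 0 + x.2.2 * γ 1 0) (0 * γ 0 1 + x.2.2 * γ 1 1)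
    (by rw [zero_mul, zero_add]; exact hγn.mul_left _)
    (by
      obtain ⟨k, hk⟩ := hγn
      have : x.1 * γ 0 0 + x.2.1 * γ 1 0 = x.1 * γ 0 0 + n * (x.2.1 * k) := by rw [hk]; ring
      rw [this]
      exact (hco.mul_left hcop).add_mul_left_left _)
    ⟨u, hu, by
      rw [← had, ← hu']
      ring⟩
  exact ⟨y, hy, δ, hδ, by rw [e, hyδ]⟩

/-- Determinant of the Atkin-Lehner matrix. -/
theorem wmat_eq {F : Type} [Field F] (n : F[X]) :
    (Wmat n : GLK F) = mat (emb F 0) (emb F (-1)) (emb F n) (emb F 0) := by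
  unfold Wmat
  rw [map_zero, map_neg, map_one]

/-- Conjugation by the Atkin-Lehner matrix preserves `Γ_0(n)`. -/
theorem w_conj (hMTX : MTXStmt) {F : Type} [Field F] {n : F[X]} (hn : n ≠ 0) {ε : GLA F}
    (hε : ε ∈ Gam0 n) : ∃ ε' ∈ Gam0 n, (toK ε : GLK F) * Wmat n = Wmat n * toK ε' := by
  obtain ⟨u, hu, hu'⟩ := det_unit ε
  obtain ⟨k, hk⟩ : n ∣ ε 1 0 := hε
  obtain ⟨_, _, _, _, _, _, _, _, _, _, _, _, h13, _⟩ := hMTX F
  obtain ⟨γ, g1, g2, g3, g4⟩ := h13 (ε 1 1) (-k) (- (n * ε 0 1)) (ε 0 0) (by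
    have : ε 1 1 * ε 0 0 - -k * -(n * ε 0 1) = C u := by
      rw [← hu', hk]; ring
    rw [this]
    exact Polynomial.isUnit_C.2 (isUnit_iff_ne_zero.2 hu))
  refine ⟨γ, ?_, ?_⟩
  · change n ∣ γ 1 0
    rw [g3]
    exact (Dvd.intro _ rfl : n ∣ n * ε 0 1).neg_right
  · obtain ⟨v, hv, hv'⟩ := det_unit γ
    have hw : (0 : F[X]) * 0 - -1 * n ≠ 0 := by simpa using hn
    rw [toK_eq hMTX, toK_eq hMTX, wmat_eq,
      mat_mul hMTX (by rw [hu']; simpa using hu) hw,
      mat_mul hMTX hw (by rw [hv']; simpa using hv), g1, g2, g3, g4]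
    have e1 : ε 0 0 * 0 + ε 0 1 * n = 0 * ε 1 1 + -1 * -(n * ε 0 1) := by ring
    have e2 : ε 0 0 * -1 + ε 0 1 * 0 = 0 * -k + -1 * ε 0 0 := by ring
    have e3 : ε 1 0 * 0 + ε 1 1 * n = n * ε 1 1 + 0 * -(n * ε 0 1) := by ring
    have e4 : ε 1 0 * -1 + ε 1 1 * 0 = n * -k + 0 * ε 0 0 := by rw [hk]; ring
    rw [e1, e2, e3, e4]

/-- The Atkin-Lehner conjugate of an index matrix. -/
theorem w_form (hDLT : DLTStmt) (hMTX : MTXStmt) {F : Type} [Field F] {n m : F[X]}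
    (hn : n ≠ 0) (hm : m.Monic) (hmn : IsCoprime m n) {x : F[X] × F[X] × F[X]}
    (hx : x ∈ HIdx n m) :
    ∃ y ∈ HIdx n m, ∃ δ ∈ Gam0 n, (Wmat n : GLK F) * hmat x = toK δ * hmat y * Wmat n := by
  have hx0 := hdet hm hx
  obtain ⟨ha, hd, had, hco, hbd⟩ := hx
  have hdn : IsCoprime x.2.2 n := by
    rw [← had] at hmn
    exact hmn.of_mul_left_right
  obtain ⟨y, ⟨hy, δ, hδ, hyδ⟩, -⟩ := hDLT F n m hm x.2.2 0 (-(n * x.2.1)) x.1
    ((Dvd.intro _ rfl : n ∣ n * x.2.1).neg_right) hdn ⟨1, one_ne_zero, by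
      rw [C_1, one_mul, zero_mul, sub_zero, mul_comm, had]⟩
  refine ⟨y, hy, δ, hδ, ?_⟩
  rw [← hyδ, hmat_eq, wmat_eq]
  have hw : (0 : F[X]) * 0 - -1 * n ≠ 0 := by simpa using hn
  have hdd : x.2.2 * x.1 - 0 * -(n * x.2.1) ≠ 0 := by
    have : x.2.2 * x.1 - 0 * -(n * x.2.1) = x.1 * x.2.2 - x.2.1 * 0 := by ring
    rw [this]; exact hx0
  rw [mat_mul hMTX hw hx0, mat_mul hMTX hdd hw]
  have e1 : 0 * x.1 + -1 * 0 = x.2.2 * 0 + 0 * n := by ring
  have e2 : 0 * x.2.1 + -1 * x.2.2 = x.2.2 * -1 + 0 * 0 := by ring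
  have e3 : n * x.1 + 0 * 0 = -(n * x.2.1) * 0 + x.1 * n := by ring
  have e4 : n * x.2.1 + 0 * x.2.2 = -(n * x.2.1) * -1 + x.1 * 0 := by ring
  rw [e1, e2, e3, e4]

/-- HPM: the index set is finite, right multiplication by `Γ_0(n)` and, for `m` prime to `n`,
conjugation by the Atkin-Lehner matrix permute it. -/
theorem hpm (hDLT : DLTStmt) (hMTX : MTXStmt) : HPMStmt := by
  intro F _ _ n m hn hm
  have hfin := hidx_finite n m
  have : Finite (HIdx n m) := hfin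
  refine ⟨hfin, ?_, ?_⟩
  · intro γ hγ
    choose f hf δ hδ hfδ using fun x : HIdx n m => right_form hDLT hMTX hm hγ x.2
    let e : HIdx n m → HIdx n m := fun x => ⟨f x, hf x⟩
    have hinj : Function.Injective e := by
      intro x y hxy
      have hxy' : f x = f y := congrArg Subtype.val hxy
      apply Subtype.ext
      have h1 := hfδ x
      have h2 := hfδ y
      rw [hxy'] at h1
      have h3 : (hmat (y : F[X] × F[X] × F[X]) : GLK F) =
          toK (δ y) * hmat (f y) * (toK γ)⁻¹ := by rw [← h2, mul_inv_cancel_right]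
      have h4 : (hmat (x : F[X] × F[X] × F[X]) : GLK F) =
          toK (δ x) * hmat (f y) * (toK γ)⁻¹ := by rw [← h1, mul_inv_cancel_right]
      apply uniq hMTX hm x.2 y.2 (δ y * (δ x)⁻¹)
      rw [h3, h4, map_mul, map_inv]
      simp only [mul_assoc, inv_mul_cancel_left]
    refine ⟨Equiv.ofBijective e (Finite.injective_iff_bijective.1 hinj), fun x => ⟨δ x, hδ x, ?_⟩⟩
    exact hfδ x
  · intro hmn
    choose f hf δ hδ hfδ using fun x : HIdx n m => w_form hDLT hMTX hn hm hmn x.2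
    let e : HIdx n m → HIdx n m := fun x => ⟨f x, hf x⟩
    have hinj : Function.Injective e := by
      intro x y hxy
      have hxy' : f x = f y := congrArg Subtype.val hxy
      apply Subtype.ext
      have h1 := hfδ x
      have h2 := hfδ y
      rw [hxy'] at h1
      -- W x = δx δy⁻¹ W y = W ε' y
      obtain ⟨_, _, _, _, _, _, _, _, _, _, _, _, _, _, _, h16, h17⟩ := hMTX F
      have hε : δ x * (δ y)⁻¹ ∈ Gam0 n := h16 n _ _ (hδ x) (h17 n _ (hδ y))
      obtain ⟨ε', -, hε''⟩ := w_conj hMTX hn hε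
      have h3 : (Wmat n : GLK F) * hmat (x : F[X] × F[X] × F[X]) =
          Wmat n * (toK ε' * hmat (y : F[X] × F[X] × F[X])) := by
        rw [← mul_assoc, ← hε'', mul_assoc, h2, h1, map_mul, map_inv]
        simp only [mul_assoc, inv_mul_cancel_left]
      have h4 := mul_left_cancel h3
      exact (uniq hMTX hm y.2 x.2 ε' h4.symm).symm
    refine ⟨Equiv.ofBijective e (Finite.injective_iff_bijective.1 hinj), fun x => ⟨δ x, hδ x, ?_⟩⟩
    exact hfδ x

end Pool.Agent.HK.H14
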