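import Pool.Agent.Helper8_HK.Stmt3

/-! Module POW of squad HK: power sums over a vector space. -/

namespace Pool.Agent.HK.H14

open Polynomial

/-- The number of elements of a nontrivial vector space is zero in the field. -/
theorem card_zero {F : Type} [Field F] [Fintype F] {C : Type} [Field C] (j : F →+* C)
    (V : Type) [AddCommGroup V] [Module F V] [Fintype V] [Nontrivial V] :
    ((Fintype.card V : ℕ) : C) = 0 := by
  have h1 : ((Fintype.card F : ℕ) : C) = 0 := by
    have h : ((Fintype.card F : ℕ) : F) = 0 := FiniteField.cast_card_eq_zero F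
    have h2 := congrArg j h
    rwa [map_natCast, map_zero] at h2
  have : Module.Finite F V := Module.Finite.of_finite
  rw [Module.card_eq_pow_finrank (K := F) (V := V), Nat.cast_pow, h1]
  exact zero_pow (Module.finrank_pos (R := F) (M := V)).ne'

/-- Low power sums vanish. -/
theorem pow_sum_zero {F : Type} [Field F] [Fintype F] {C : Type} [Field C] (j : F →+* C)
    (V : Type) [AddCommGroup V] [Module F V] [Fintype V] [Nontrivial V] (u : V → C)
    (hc : ∀ (c : F) v, u (c • v) = j c * u v) (i : ℕ) (hi : i < Fintype.card F - 1) :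
    ∑ v : V, (u v) ^ i = 0 := by
  rcases Nat.eq_zero_or_pos i with h0 | h0
  · subst h0
    simp only [pow_zero, Finset.sum_const, Finset.card_univ, nsmul_eq_mul, mul_one]
    exact card_zero j V
  · have hnd : ¬ (Fintype.card F - 1 ∣ i) := fun h => absurd (Nat.le_of_dvd h0 h) (by omega)
    rw [← FiniteField.forall_pow_eq_one_iff F i] at hnd
    push Not at hnd
    obtain ⟨c, hc1⟩ := hnd
    have e : ∑ v : V, (u v) ^ i = (j (c : F)) ^ i * ∑ v : V, (u v) ^ i := by
      rw [Finset.mul_sum]
      rw [← (Equiv.sum_comp (MulAction.toPerm c : Equiv.Perm V) fun v => (u v) ^ i)]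
      refine Finset.sum_congr rfl fun v _ => ?_
      rw [MulAction.toPerm_apply, Units.smul_def, hc, mul_pow]
    have hne : (j (c : F)) ^ i ≠ 1 := by
      intro h
      apply hc1
      rw [← map_pow, ← map_one j] at h
      have h2 := j.injective h
      ext
      rw [Units.val_pow_eq_pow_val, h2, Units.val_one]
    have h3 : (1 - (j (c : F)) ^ i) * ∑ v : V, (u v) ^ i = 0 := by
      rw [sub_mul, one_mul, ← e, sub_self]
    rcases mul_eq_zero.1 h3 with h | h
    · exact absurd (sub_eq_zero.1 h).symm hne
    · exact h

/-- POW: power sums of exponent `q - 1` over a vector space are translation invariant. -/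
theorem pow : POWStmt := by
  intro F _ _ C _ j V _ _ _ _ u _ hc Y
  have h1 : ∀ v : V, (Y + u v) ^ (Fintype.card F - 1) =
      ∑ m ∈ Finset.range (Fintype.card F - 1 + 1),
        Y ^ m * (u v) ^ (Fintype.card F - 1 - m) * ((Fintype.card F - 1).choose m : C) :=
    fun v => add_pow _ _ _
  simp only [h1]
  rw [Finset.sum_comm, Finset.sum_eq_single 0]
  · simp
  · intro m hm hm0
    have hlt : Fintype.card F - 1 - m < Fintype.card F - 1 := by
      have := Finset.mem_range.1 hm
      omega
    have e : ∀ v : V, Y ^ m * (u v) ^ (Fintype.card F - 1 - m) *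
        ((Fintype.card F - 1).choose m : C) =
        (Y ^ m * ((Fintype.card F - 1).choose m : C)) * (u v) ^ (Fintype.card F - 1 - m) :=
      fun v => by ring
    simp only [e]
    rw [← Finset.mul_sum, pow_sum_zero j V u hc _ hlt, mul_zero]
  · intro h
    exact absurd (Finset.mem_range.2 (Nat.succ_pos _)) h

end Pool.Agent.HK.H14
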